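import Mathlib
import Pool.Agent.R499.FranelPower

/-!
# `2n` divides `∑_{k<n} (3k+2) ∑_j C(k,j)^4`
-/

namespace Pool.Agent.Results.MP_7c66d8_nt.FourthPowerSum

open Finset

/-- For every `n`, `2 n` divides `∑_{k=0}^{n-1} (3k+2) ∑_{j=0}^{k} C(k,j)^4`. -/
theorem result (n : ℕ) :
    2 * n ∣ ∑ k ∈ range n, (3 * k + 2) * ∑ j ∈ range (k + 1), (k.choose j) ^ 4 := by
  have h := Pool.Agent.R499.FranelPower.two_n 4 n
  have h2 : ∑ k ∈ range n, (-1) ^ (4 * k) * (3 * (k : ℤ) + 2)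
        * (Pool.Agent.R499.FranelPower.f 4 k : ℤ)
      = ((∑ k ∈ range n, (3 * k + 2) * ∑ j ∈ range (k + 1), (k.choose j) ^ 4 : ℕ) : ℤ) := by
    unfold Pool.Agent.R499.FranelPower.f
    push_cast
    apply sum_congr rfl
    intro k _
    rw [pow_mul]
    norm_num
  rw [h2] at h
  exact_mod_cast h

end Pool.Agent.Results.MP_7c66d8_nt.FourthPowerSum
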